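import Mathlib

open Polynomial Finset

namespace Pool.Agent.Results.MP_e29efe_nt.Disproof

/-- Condition (A): some `|b i|` exceeds the sum of all the other `|b j|`. -/
def CondA {d : ℕ} (b : Fin d → ℤ) : Prop :=
  ∃ i, ∑ j ∈ univ.erase i, |b j| < |b i|

/-- Condition (B): for some index `i` and prime `p`, `p` divides every `b j` with `j ≠ i` but
does not divide `b i`. -/
def CondB {d : ℕ} (b : Fin d → ℤ) : Prop :=
  ∃ (i : Fin d) (p : ℕ), p.Prime ∧ ¬ (p : ℤ) ∣ b i ∧ ∀ j, j ≠ i → (p : ℤ) ∣ b j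

/-- `IsSolution b α v`: `α` is a nonzero algebraic number of degree `d`, `v` lists its `d` distinct
conjugates (all the complex roots of its minimal polynomial over `ℚ`) in some order, and
`∏ (v i) ^ (b i) = 1`. -/
structure IsSolution {d : ℕ} (b : Fin d → ℤ) (α : ℂ) (v : Fin d → ℂ) : Prop where
  ne_zero : α ≠ 0
  algebraic : IsAlgebraic ℚ α
  degree : (minpoly ℚ α).natDegree = d
  injective : Function.Injective v
  range_eq : Set.range v = {z : ℂ | aeval z (minpoly ℚ α) = 0}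
  relation : ∏ i, v i ^ b i = 1

/-- `α` is a root of unity. -/
def IsRootOfUnity (α : ℂ) : Prop := ∃ n : ℕ, 0 < n ∧ α ^ n = 1

/-- The vector `(3, 2, 1, 1, ..., 1)` of length `m + 3`. -/
def bvec (m : ℕ) : Fin (m + 3) → ℤ := fun i => if i = 0 then 3 else if i = 1 then 2 else 1

lemma bvec_zero (m : ℕ) : bvec m 0 = 3 := by simp [bvec]
lemma bvec_one (m : ℕ) : bvec m 1 = 2 := by simp [bvec]
lemma bvec_ge (m : ℕ) (i : Fin (m + 3)) (h0 : i ≠ 0) (h1 : i ≠ 1) : bvec m i = 1 := by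
  simp [bvec, h0, h1]
lemma bvec_pos (m : ℕ) (i : Fin (m + 3)) : 1 ≤ bvec m i := by
  unfold bvec; split_ifs <;> norm_num
lemma bvec_le (m : ℕ) (i : Fin (m + 3)) : bvec m i ≤ 3 := by
  unfold bvec; split_ifs <;> norm_num

lemma sum_bvec (m : ℕ) : ∑ i, bvec m i = (m : ℤ) + 6 := by
  rw [Fin.sum_univ_succ, Fin.sum_univ_succ]
  have : ∀ i : Fin (m + 1), bvec m (i.succ.succ) = 1 := by
    intro i
    apply bvec_ge
    · exact Fin.succ_ne_zero _
    · intro h
      have := congrArg Fin.val h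
      simp at this
  simp only [this]
  have h1 : bvec m (Fin.succ 0) = 2 := bvec_one m
  rw [bvec_zero, h1]
  simp
  ring

lemma not_condA (m : ℕ) : ¬ CondA (bvec m) := by
  rintro ⟨i, hi⟩
  have h1 : ∀ j, |bvec m j| = bvec m j := fun j => abs_of_nonneg (by linarith [bvec_pos m j])
  simp only [h1] at hi
  have h2 := Finset.add_sum_erase univ (bvec m) (mem_univ i)
  rw [sum_bvec] at h2
  have := bvec_le m i
  have : (0 : ℤ) ≤ m := by positivity
  linarith

lemma not_condB (m : ℕ) : ¬ CondB (bvec m) := by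
  rintro ⟨i, p, hp, hpi, hall⟩
  have hne : ∀ c : ℤ, (p : ℤ) ∣ c → c = 1 → False := by
    rintro c hc rfl
    have h1 : (p : ℤ) ∣ 1 := hc
    have h2 : p ∣ 1 := by exact_mod_cast h1
    exact hp.one_lt.ne' (Nat.dvd_one.1 h2)
  have n0 : (⟨2, by omega⟩ : Fin (m + 3)) ≠ 0 := by
    intro h
    simpa using congrArg Fin.val h
  have n1 : (⟨2, by omega⟩ : Fin (m + 3)) ≠ 1 := by
    intro h
    simpa using congrArg Fin.val h
  by_cases h2 : i = ⟨2, by omega⟩
  · -- then p divides 3 and 2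
    have e0 : (p : ℤ) ∣ bvec m 0 := hall 0 (by rw [h2]; exact n0.symm)
    have e1 : (p : ℤ) ∣ bvec m 1 := hall 1 (by rw [h2]; exact n1.symm)
    rw [bvec_zero] at e0
    rw [bvec_one] at e1
    exact hne _ (dvd_sub e0 e1) (by norm_num)
  · exact hne _ (hall _ (Ne.symm h2)) (bvec_ge m _ n0 n1)

/-- The product in the relation, rewritten. -/
lemma prod_bvec (m : ℕ) (v : Fin (m + 3) → ℂ) :
    ∏ i, v i ^ bvec m i = (∏ i, v i) * (v 1 * v 0 ^ 2) := by
  have h : ∀ i, v i ^ bvec m i =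
      v i * ((if i = 0 then v 0 ^ 2 else 1) * (if i = 1 then v 1 else 1)) := by
    intro i
    by_cases h0 : i = 0
    · subst h0
      have h01 : (0 : Fin (m + 3)) ≠ 1 := by simp
      rw [bvec_zero, if_pos rfl, if_neg h01, mul_one]
      have : (3 : ℤ) = ((3 : ℕ) : ℤ) := rfl
      rw [this, zpow_natCast]
      ring
    · by_cases h1 : i = 1
      · subst h1
        rw [bvec_one, if_neg h0, if_pos rfl, one_mul]
        have : (2 : ℤ) = ((2 : ℕ) : ℤ) := rfl
        rw [this, zpow_natCast]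
        ring
      · rw [bvec_ge m i h0 h1, if_neg h0, if_neg h1]
        simp
  simp only [h, Finset.prod_mul_distrib]
  congr 1
  rw [Finset.prod_ite_eq' univ (0 : Fin (m + 3)), Finset.prod_ite_eq' univ (1 : Fin (m + 3))]
  simp
  ring

/-- The product of all conjugates is rational. -/
lemma prod_conj_rational {d : ℕ} {α : ℂ} {v : Fin d → ℂ} (hα : IsAlgebraic ℚ α)
    (hinj : Function.Injective v)
    (hdeg : (minpoly ℚ α).natDegree = d)
    (hr : Set.range v = {z : ℂ | aeval z (minpoly ℚ α) = 0}) :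
    ∏ i, v i = (((-1) ^ d * (minpoly ℚ α).coeff 0 : ℚ) : ℂ) := by
  classical
  set P := minpoly ℚ α with hP
  have hmon : P.Monic := minpoly.monic hα.isIntegral
  let Q : ℂ[X] := P.map (algebraMap ℚ ℂ)
  have hQmon : Q.Monic := hmon.map _
  have hQdeg : Q.natDegree = d := by rw [← hdeg]; exact hmon.natDegree_map _
  have hroot : ∀ i, Q.IsRoot (v i) := by
    intro i
    have : v i ∈ {z : ℂ | aeval z P = 0} := hr ▸ Set.mem_range_self i
    rw [IsRoot.def, eval_map, ← aeval_def]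
    exact this
  have hle : (univ.map ⟨v, hinj⟩ : Finset ℂ).val ≤ Q.roots := by
    rw [Multiset.le_iff_subset (Finset.nodup _)]
    intro z hz
    simp only [Finset.mem_val, Finset.mem_map, Finset.mem_univ, true_and,
      Function.Embedding.coeFn_mk] at hz
    obtain ⟨i, rfl⟩ := hz
    exact (mem_roots hQmon.ne_zero).2 (hroot i)
  have hcard : Multiset.card Q.roots ≤ Multiset.card (univ.map ⟨v, hinj⟩ : Finset ℂ).val := by
    refine (card_roots' Q).trans ?_
    rw [hQdeg]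
    simp
  have hroots : (univ.map ⟨v, hinj⟩ : Finset ℂ).val = Q.roots :=
    Multiset.eq_of_le_of_card_le hle hcard
  have hsplit : Q.Splits := IsAlgClosed.splits Q
  have hprod := hsplit.coeff_zero_eq_prod_roots_of_monic hQmon
  rw [← hroots, hQdeg] at hprod
  have h1 : Multiset.prod (univ.map ⟨v, hinj⟩ : Finset ℂ).val = ∏ i, v i := by
    simp [Finset.prod]
  rw [h1] at hprod
  have h2 : Q.coeff 0 = (((P.coeff 0 : ℚ)) : ℂ) := by simp [Q]
  rw [h2] at hprod
  push_cast
  rw [hprod, ← mul_assoc, ← mul_pow]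
  simp

/-- The map `z ↦ (q z ^ 2)⁻¹` sends conjugates to conjugates as soon as it does so for one. -/
lemma conj_map {F E : Type*} [Field F] [Field E] [Algebra F E]
    {P : F[X]} (hirr : Irreducible P) (hmon : P.Monic) (q : F) (z w : E)
    (hz : aeval z P = 0) (hw : aeval w P = 0)
    (hφ : aeval ((algebraMap F E q) * z ^ 2)⁻¹ P = 0) :
    aeval ((algebraMap F E q) * w ^ 2)⁻¹ P = 0 := by
  have hzint : IsIntegral F z := ⟨P, hmon, hz⟩
  have hmin : minpoly F z = P := (minpoly.eq_of_irreducible_of_monic hirr hz hmon).symm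
  let pb := IntermediateField.adjoin.powerBasis hzint
  have hgen : pb.gen = IntermediateField.AdjoinSimple.gen F z := by
    simp [pb]
  have hminpb : minpoly F pb.gen = P := by
    rw [hgen, IntermediateField.minpoly_gen, hmin]
  let f : IntermediateField.adjoin F {z} →ₐ[F] E := pb.lift w (by rw [hminpb]; exact hw)
  have hf : f pb.gen = w := pb.lift_gen w _
  let u : IntermediateField.adjoin F {z} := ((algebraMap F _ q) * pb.gen ^ 2)⁻¹
  have hcoe : ((pb.gen : IntermediateField.adjoin F {z}) : E) = z := by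
    rw [hgen, IntermediateField.AdjoinSimple.coe_gen]
  have hu : (u : E) = ((algebraMap F E q) * z ^ 2)⁻¹ := by
    simp only [u]
    push_cast
    rw [hcoe]
  have h0 : aeval u P = 0 := by
    have h1 : aeval ((u : E)) P = 0 := by rw [hu]; exact hφ
    have h2 : aeval (algebraMap (IntermediateField.adjoin F {z}) E u) P =
      algebraMap (IntermediateField.adjoin F {z}) E (aeval u P) := aeval_algebraMap_apply _ _ _
    have h3 : (algebraMap (IntermediateField.adjoin F {z}) E u) = (u : E) := rfl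
    rw [h3, h1] at h2
    exact (map_eq_zero _).1 h2.symm
  have h4 : aeval (f u) P = f (aeval u P) := aeval_algHom_apply f u P
  rw [h0, map_zero] at h4
  have h5 : f u = ((algebraMap F E q) * w ^ 2)⁻¹ := by
    simp [u, hf]
  rw [h5] at h4
  exact h4

/-- A nonzero complex number all of whose iterates under `y ↦ y ^ (-2)` lie in a finite set is a
root of unity. -/
lemma rootOfUnity_of_finite (S : Set ℂ) (hS : S.Finite) (y : ℂ) (hy0 : y ≠ 0) (hy : y ∈ S)
    (hmap : ∀ z ∈ S, (z ^ 2)⁻¹ ∈ S) : IsRootOfUnity y := by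
  have hmem : ∀ k : ℕ, y ^ ((-2 : ℤ) ^ k) ∈ S := by
    intro k
    induction k with
    | zero => simpa using hy
    | succ k ih =>
      have := hmap _ ih
      have e : ((y ^ ((-2 : ℤ) ^ k)) ^ 2)⁻¹ = y ^ ((-2 : ℤ) ^ (k + 1)) := by
        have h2 : (y ^ ((-2 : ℤ) ^ k)) ^ 2 = y ^ (2 * (-2 : ℤ) ^ k) := by
          rw [mul_comm, zpow_mul]
          rfl
        rw [h2, ← zpow_neg]
        congr 1
        ring
      rwa [e] at this
  have hfin : Finite S := hS
  obtain ⟨i, j, hij, he⟩ := Finite.exists_ne_map_eq_of_infinite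
    (fun k : ℕ => (⟨y ^ ((-2 : ℤ) ^ k), hmem k⟩ : S))
  have he' : y ^ ((-2 : ℤ) ^ i) = y ^ ((-2 : ℤ) ^ j) := by
    simpa using he
  have hne : (-2 : ℤ) ^ i - (-2) ^ j ≠ 0 := by
    intro h
    apply hij
    have h1 : (-2 : ℤ) ^ i = (-2) ^ j := by linarith
    have h2 := congrArg Int.natAbs h1
    rw [Int.natAbs_pow, Int.natAbs_pow] at h2
    exact Nat.pow_right_injective (le_refl 2) h2
  have h1 : y ^ ((-2 : ℤ) ^ i - (-2) ^ j) = 1 := by
    rw [zpow_sub₀ hy0, he', div_self (zpow_ne_zero _ hy0)]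
  refine ⟨((-2 : ℤ) ^ i - (-2) ^ j).natAbs, Int.natAbs_pos.2 hne, ?_⟩
  rcases Int.natAbs_eq ((-2 : ℤ) ^ i - (-2) ^ j) with h | h
  · rw [h] at h1
    rwa [zpow_natCast] at h1
  · rw [h, zpow_neg, inv_eq_one] at h1
    rwa [zpow_natCast] at h1

/-- Every solution for `bvec m` is a root of unity. -/
lemma torsion (m : ℕ) (α : ℂ) (v : Fin (m + 3) → ℂ) (h : IsSolution (bvec m) α v) :
    IsRootOfUnity α := by
  set P := minpoly ℚ α with hP
  have hmon : P.Monic := minpoly.monic h.algebraic.isIntegral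
  have hirr : Irreducible P := minpoly.irreducible h.algebraic.isIntegral
  have hrel := h.relation
  rw [prod_bvec, prod_conj_rational h.algebraic h.injective h.degree h.range_eq] at hrel
  set q : ℚ := (-1) ^ (m + 3) * P.coeff 0 with hq
  have hprod : ∏ i, v i = (q : ℂ) :=
    prod_conj_rational h.algebraic h.injective h.degree h.range_eq
  have hroot : ∀ i, aeval (v i) P = 0 := by
    intro i
    have : v i ∈ {z : ℂ | aeval z P = 0} := h.range_eq ▸ Set.mem_range_self i
    exact this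
  have hsurj : ∀ z : ℂ, aeval z P = 0 → ∃ i, v i = z := by
    intro z hz
    have : z ∈ Set.range v := by rw [h.range_eq]; exact hz
    exact this
  have hq0 : (q : ℂ) ≠ 0 := by
    intro h0
    rw [h0, zero_mul] at hrel
    exact zero_ne_one hrel
  have hv0 : v 0 ≠ 0 := by
    intro h0
    rw [h0] at hrel
    simp at hrel
  have hφ0 : v 1 = ((q : ℂ) * v 0 ^ 2)⁻¹ := by
    exact eq_inv_of_mul_eq_one_left (by linear_combination hrel)
  have hφ : ∀ w : ℂ, aeval w P = 0 → aeval ((q : ℂ) * w ^ 2)⁻¹ P = 0 := by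
    intro w hw
    have := conj_map hirr hmon q (v 0) w (hroot 0) hw
      (by rw [eq_ratCast, ← hφ0]; exact hroot 1)
    rwa [eq_ratCast] at this
  have hne0 : ∀ w : ℂ, aeval w P = 0 → w ≠ 0 := by
    rintro w hw rfl
    obtain ⟨i, hi⟩ := hsurj 0 hw
    apply hq0
    rw [← hprod]
    exact Finset.prod_eq_zero (Finset.mem_univ i) hi
  -- extremal absolute values
  obtain ⟨iM, -, hM⟩ := Finset.exists_max_image univ (fun i => ‖v i‖) ⟨0, mem_univ 0⟩
  obtain ⟨im, -, hm⟩ := Finset.exists_min_image univ (fun i => ‖v i‖) ⟨0, mem_univ 0⟩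
  set M := ‖v iM‖ with hMdef
  set μ := ‖v im‖ with hμdef
  have hMpos : 0 < M := norm_pos_iff.2 (hne0 _ (hroot iM))
  have hμpos : 0 < μ := norm_pos_iff.2 (hne0 _ (hroot im))
  have hqpos : 0 < ‖(q : ℂ)‖ := norm_pos_iff.2 hq0
  have hnorm : ∀ w : ℂ, aeval w P = 0 →
      μ ≤ (‖(q : ℂ)‖ * ‖w‖ ^ 2)⁻¹ ∧ (‖(q : ℂ)‖ * ‖w‖ ^ 2)⁻¹ ≤ M := by
    intro w hw
    obtain ⟨i, hi⟩ := hsurj _ (hφ w hw)
    have e : (‖(q : ℂ)‖ * ‖w‖ ^ 2)⁻¹ = ‖v i‖ := by
      rw [hi, norm_inv, norm_mul, norm_pow]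
    rw [e]
    exact ⟨hm i (mem_univ i), hM i (mem_univ i)⟩
  have h1 := (hnorm _ (hroot iM)).1
  have h2 := (hnorm _ (hroot im)).2
  rw [← hMdef] at h1
  rw [← hμdef] at h2
  have h1' : μ * (‖(q : ℂ)‖ * M ^ 2) ≤ 1 := by
    rwa [le_inv_comm₀ hμpos (by positivity), ← one_div, le_div_iff₀ hμpos, mul_comm] at h1
  have h2' : 1 ≤ M * (‖(q : ℂ)‖ * μ ^ 2) := by
    rwa [inv_le_iff_one_le_mul₀ (by positivity)] at h2
  have hMμ : M ≤ μ := by
    by_contra hcon
    push Not at hcon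
    have : M * (‖(q : ℂ)‖ * μ ^ 2) < μ * (‖(q : ℂ)‖ * M ^ 2) := by
      have : 0 < ‖(q : ℂ)‖ * μ * M * (M - μ) := by
        have : 0 < M - μ := by linarith
        positivity
      nlinarith
    linarith
  have hall : ∀ i, ‖v i‖ = M := fun i =>
    le_antisymm (hM i (mem_univ i)) (hMμ.trans (hm i (mem_univ i)))
  have hqM : ‖(q : ℂ)‖ = M ^ (m + 3) := by
    rw [← hprod, norm_prod]
    simp [hall]
  have hM1 : M = 1 := by
    have e1 : ‖(q : ℂ)‖ * (M * M ^ 2) = 1 := by
      have := congrArg norm hrel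
      rw [norm_mul, norm_mul, norm_pow, hall, hall, norm_one] at this
      exact this
    rw [hqM] at e1
    have e2 : M ^ (m + 6) = 1 := by
      rw [← e1]; ring
    exact (pow_eq_one_iff_of_nonneg hMpos.le (by omega)).1 e2
  have hq1 : (q : ℂ) ^ 2 = 1 := by
    rw [hM1, one_pow] at hqM
    have e1 : |(q : ℝ)| = 1 := by
      have : ‖(q : ℂ)‖ = |(q : ℝ)| := by
        have : (q : ℂ) = ((q : ℝ) : ℂ) := by push_cast; rfl
        rw [this, Complex.norm_real, Real.norm_eq_abs]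
      rw [← this, hqM]
    have e2 : (q : ℝ) ^ 2 = 1 := by rw [← sq_abs, e1, one_pow]
    exact_mod_cast e2
  -- the squares of the conjugates
  let S : Set ℂ := (fun i => v i ^ 2) '' Set.univ
  have hSfin : S.Finite := (Set.finite_univ).image _
  have hαroot : aeval α P = 0 := minpoly.aeval ℚ α
  obtain ⟨i, hi⟩ := hsurj α hαroot
  have hy : IsRootOfUnity (α ^ 2) := by
    refine rootOfUnity_of_finite S hSfin (α ^ 2) (pow_ne_zero 2 h.ne_zero)
      ⟨i, Set.mem_univ _, by simp [hi]⟩ ?_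
    rintro _ ⟨j, -, rfl⟩
    obtain ⟨k, hk⟩ := hsurj _ (hφ (v j) (hroot j))
    refine ⟨k, Set.mem_univ _, ?_⟩
    simp only
    rw [hk, inv_pow, mul_pow, hq1, one_mul]
  obtain ⟨n, hn, he⟩ := hy
  exact ⟨2 * n, by omega, by rw [pow_mul, he]⟩

/-- If `d + 1 = m + 4` is a prime `≥ 5` then the relation has a solution (a primitive
`(d+1)`-th root of unity). -/
lemma exists_solution (m : ℕ) (hp : (m + 4).Prime) (h5 : 5 ≤ m + 4) :
    ∃ (α : ℂ) (v : Fin (m + 3) → ℂ), IsSolution (bvec m) α v := by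
  classical
  set p := m + 4 with hpdef
  have : Fact p.Prime := ⟨hp⟩
  have : NeZero p := ⟨hp.ne_zero⟩
  set ζ : ℂ := Complex.exp (2 * Real.pi * Complex.I / p) with hζdef
  have hζ : IsPrimitiveRoot ζ p := Complex.isPrimitiveRoot_exp p hp.ne_zero
  have hmin : minpoly ℚ ζ = cyclotomic p ℚ := (cyclotomic_eq_minpoly_rat hζ hp.pos).symm
  -- the bijection with the units
  have hcard : Fintype.card (Fin (m + 3)) = Fintype.card (ZMod p)ˣ := by
    rw [Fintype.card_fin, ZMod.card_units]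
    omega
  let e0 : Fin (m + 3) ≃ (ZMod p)ˣ := Fintype.equivOfCardEq hcard
  have h2unit : IsUnit (-2 : ZMod p) := by
    rw [isUnit_iff_ne_zero]
    intro h
    have h' : ((2 : ℕ) : ZMod p) = 0 := by
      have : (2 : ZMod p) = 0 := by linear_combination -h
      exact_mod_cast this
    rw [ZMod.natCast_eq_zero_iff] at h'
    have := Nat.le_of_dvd (by norm_num) h'
    omega
  obtain ⟨u2, hu2⟩ := h2unit
  have hu2ne : u2 ≠ 1 := by
    intro h
    rw [h] at hu2
    have h' : ((3 : ℕ) : ZMod p) = 0 := by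
      have : (3 : ZMod p) = 0 := by
        have h1 : (1 : ZMod p) = -2 := by simpa using hu2
        linear_combination h1
      exact_mod_cast this
    rw [ZMod.natCast_eq_zero_iff] at h'
    have := Nat.le_of_dvd (by norm_num) h'
    omega
  let e1 : Fin (m + 3) ≃ (ZMod p)ˣ := e0.trans (Equiv.swap (e0 0) 1)
  have he10 : e1 0 = 1 := by simp [e1]
  let e : Fin (m + 3) ≃ (ZMod p)ˣ := e1.trans (Equiv.swap (e1 1) u2)
  have he1 : e 1 = u2 := by simp [e]
  have he0 : e 0 = 1 := by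
    have h1 : (1 : (ZMod p)ˣ) ≠ e1 1 := by
      rw [← he10]
      intro h
      have := e1.injective h
      simp at this
    simp only [e, Equiv.trans_apply, he10]
    exact Equiv.swap_apply_of_ne_of_ne h1 (Ne.symm hu2ne)
  let v : Fin (m + 3) → ℂ := fun i => ζ ^ ((e i : ZMod p).val)
  have hpow : ∀ a b : ZMod p, ζ ^ a.val = ζ ^ b.val → a = b := by
    intro a b hab
    exact ZMod.val_injective p (hζ.pow_inj (ZMod.val_lt a) (ZMod.val_lt b) hab)
  have hinj : Function.Injective v := by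
    intro i j hij
    exact e.injective (Units.ext (hpow _ _ hij))
  have hdeg : (minpoly ℚ ζ).natDegree = m + 3 := by
    rw [hmin, natDegree_cyclotomic, Nat.totient_prime hp]
    omega
  have hrange : Set.range v = {z : ℂ | aeval z (minpoly ℚ ζ) = 0} := by
    rw [hmin]
    ext z
    have hz : aeval z (cyclotomic p ℚ) = 0 ↔ IsPrimitiveRoot z p := by
      rw [aeval_def, ← eval_map, map_cyclotomic, ← IsRoot.def, isRoot_cyclotomic_iff]
    rw [Set.mem_ofPred_eq, hz]
    constructor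
    · rintro ⟨i, rfl⟩
      exact hζ.pow_of_coprime _ ((ZMod.isUnit_iff_coprime _ _).1
        (by rw [ZMod.natCast_zmod_val]; exact (e i).isUnit))
    · intro hzp
      obtain ⟨k, hk, hkc, rfl⟩ := hζ.isPrimitiveRoot_iff.1 hzp
      refine ⟨e.symm (ZMod.unitOfCoprime k hkc), ?_⟩
      simp only [v, Equiv.apply_symm_apply, ZMod.coe_unitOfCoprime]
      rw [ZMod.val_natCast, Nat.mod_eq_of_lt hk]
  have halg : IsAlgebraic ℚ ζ := by
    refine ⟨cyclotomic p ℚ, cyclotomic_ne_zero p ℚ, ?_⟩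
    rw [← hmin]
    exact minpoly.aeval ℚ ζ
  refine ⟨ζ, v, ⟨hζ.ne_zero hp.ne_zero, halg, hdeg, hinj, hrange, ?_⟩⟩
  rw [prod_bvec, prod_conj_rational halg hinj hdeg hrange, hmin,
    cyclotomic_coeff_zero ℚ hp.one_lt]
  have hodd : Even (m + 3) := by
    have hodd : Odd p := hp.odd_of_ne_two (by omega)
    rw [hpdef] at hodd
    rcases hodd with ⟨k, hk⟩
    exact ⟨k, by omega⟩
  rw [hodd.neg_one_pow]
  have hv0 : v 0 = ζ ^ (1 : ZMod p).val := by simp [v, he0]
  have hv1 : v 1 = ζ ^ (-2 : ZMod p).val := by simp [v, he1, hu2]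
  have hk : ζ ^ ((-2 : ZMod p).val + 2 * (1 : ZMod p).val) = 1 := by
    rw [hζ.pow_eq_one_iff_dvd, ← ZMod.natCast_eq_zero_iff]
    push_cast
    rw [ZMod.natCast_zmod_val, ZMod.natCast_zmod_val]
    ring
  rw [hv0, hv1, ← pow_mul, ← pow_add, mul_comm (1 : ZMod p).val 2, hk]
  simp

/-- **Disproof of Q1, in every degree `d ≥ 3`.**  The vector `b = (3, 2, 1, ..., 1)` of length
`d = m + 3` satisfies neither (A) nor (B), and every solution of the relation is a root of unity.
When `d + 1` is a prime `≥ 5`, solutions do exist. -/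
theorem result :
    (∀ m : ℕ, ∃ b : Fin (m + 3) → ℤ, ¬ CondA b ∧ ¬ CondB b ∧
      (∀ (α : ℂ) (v : Fin (m + 3) → ℂ), IsSolution b α v → IsRootOfUnity α) ∧
      ((m + 4).Prime → 5 ≤ m + 4 → ∃ (α : ℂ) (v : Fin (m + 3) → ℂ), IsSolution b α v)) ∧
    ¬ (∀ d : ℕ, 1 ≤ d → ∀ b : Fin d → ℤ, ¬ CondA b → ¬ CondB b →
      ∃ (α : ℂ) (v : Fin d → ℂ), IsSolution b α v ∧ ¬ IsRootOfUnity α) := by
  refine ⟨fun m => ⟨bvec m, not_condA m, not_condB m, torsion m, exists_solution m⟩, ?_⟩
  intro h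
  obtain ⟨α, v, hs, hn⟩ := h 4 (by norm_num) (bvec 1) (not_condA 1) (not_condB 1)
  exact hn (torsion 1 α v hs)

end Pool.Agent.Results.MP_e29efe_nt.Disproof
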